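import Pool.Agent.Q23.RC.Stm
import Pool.Agent.Q169.PT.Closed
import Pool.Agent.Q169.PT.Ultra

set_option autoImplicit false
set_option linter.unusedSectionVars false

namespace Pool.Agent.Q214.RC

open Filter Topology
open Pool.Agent.Q169.PT (Rep IsCoc Van1 reg Tempered)
open Pool.Agent.Q169.PT.Cl
open Pool.Agent.Q23.RC

noncomputable section

theorem alC_single {G H : Type} [Group G] [NormedAddCommGroup H] [InnerProductSpace ℂ H]
    (π : Rep G H) (g : G) (r : ℂ) : alC π (MonoidAlgebra.single g r) = r • π.hom g := by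
  unfold alC
  rw [MonoidAlgebra.lift_single]

section q

variable {G H H' : Type} [Group G] [NormedAddCommGroup H] [InnerProductSpace ℂ H]
  [NormedAddCommGroup H'] [InnerProductSpace ℂ H'] (π : Rep G H) (π' : Rep G H')
  (q : (ℕ → H) → H')
  (h1 : ∀ x y : ℕ → H, BdS x → BdS y → q (x + y) = q x + q y)
  (h2 : ∀ (c : ℂ) (x : ℕ → H), BdS x → q (c • x) = c • q x)
  (h3 : ∀ (g : G) (x : ℕ → H), BdS x → π'.hom g (q x) = q fun n => π.hom g (x n))

include h1 h2 h3 in
theorem q_alC (a : MonoidAlgebra ℂ G) (x : ℕ → H) (hx : BdS x) :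
    alC π' a (q x) = q fun n => alC π a (x n) := by
  induction a using MonoidAlgebra.induction_linear with
  | zero =>
    rw [map_zero, map_zero]
    exact (q_zero q h2).symm
  | add a b ha hb =>
    rw [map_add, map_add]
    change alC π' a (q x) + alC π' b (q x) = _
    rw [ha, hb, ← h1 _ _ (hx.op _) (hx.op _)]
    rfl
  | single g r =>
    rw [alC_single, alC_single]
    change r • π'.hom g (q x) = q fun n => r • π.hom g (x n)
    rw [h3 g x hx, ← h2 _ _ (hx.op _)]
    rfl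

include h1 h2 h3 in
theorem q_mo {a b : ℕ} (M : Matrix (Fin a) (Fin b) (MonoidAlgebra ℂ G)) (x : Fin b → ℕ → H)
    (hx : ∀ j, BdS (x j)) (k : Fin a) :
    mo π' M (fun j => q (x j)) k = q fun n => mo π M (fun j => x j n) k := by
  unfold mo
  have e : (fun n => ∑ j, alC π (M k j) (x j n)) =
      ∑ j, fun n => alC π (M k j) (x j n) := by
    funext n
    rw [Finset.sum_apply]
  rw [e, q_sum q h1 h2 _ _ fun j => (hx j).op _]
  exact Finset.sum_congr rfl fun j _ => q_alC π π' q h1 h2 h3 _ _ (hx j)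

end q

theorem mo_smul {G H : Type} [Group G] [NormedAddCommGroup H] [InnerProductSpace ℂ H]
    (π : Rep G H) {a b : ℕ} (M : Matrix (Fin a) (Fin b) (MonoidAlgebra ℂ G)) (c : ℂ)
    (v : Fin b → H) (k : Fin a) :
    mo π M (fun j => c • v j) k = c • mo π M v k := by
  unfold mo
  rw [Finset.smul_sum]
  exact Finset.sum_congr rfl fun j _ => map_smul _ _ _

theorem continuous_mo {G H : Type} [Group G] [NormedAddCommGroup H] [InnerProductSpace ℂ H]
    (π : Rep G H) {a b : ℕ} (M : Matrix (Fin a) (Fin b) (MonoidAlgebra ℂ G)) :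
    Continuous (mo π M) :=
  continuous_pi fun k => continuous_finsetSum _ fun j _ =>
    (alC π (M k j)).continuous.comp (continuous_apply j)

/-- JOB GAP -/
theorem gap (hf : S_fh) : S_gap := by
  have hu := Pool.Agent.Q169.PT.Ul.ultra
  intro G H _ _ _ X π hT hV
  by_contra hcon
  push Not at hcon
  -- normalized vectors
  have key : ∀ n : ℕ, ∃ v : Fin (X.n1) → H,
      (∀ w : Fin (X.n0) → H, ∑ k, inner ℂ (mo π X.d1 w k) (v k) = 0) ∧
      ∑ j, ‖v j‖ ^ 2 = 1 ∧ ∑ k, ‖mo π X.d2 v k‖ ^ 2 < 1 / ((n : ℝ) + 1) := by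
    intro n
    obtain ⟨v, ho, hv⟩ := hcon (1 / ((n : ℝ) + 1)) (by positivity)
    set s := ∑ j, ‖v j‖ ^ 2 with hs
    have hs0 : 0 < s := by
      have h0 : 0 ≤ ∑ k, ‖mo π X.d2 v k‖ ^ 2 := Finset.sum_nonneg fun _ _ => sq_nonneg _
      have h1 := h0.trans_lt hv
      exact (mul_pos_iff_of_pos_left (by positivity)).1 h1
    have hc : ‖((Real.sqrt s)⁻¹ : ℂ)‖ ^ 2 = s⁻¹ := by
      rw [norm_inv, Complex.norm_real, Real.norm_of_nonneg (Real.sqrt_nonneg _), inv_pow,
        Real.sq_sqrt hs0.le]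
    refine ⟨fun j => ((Real.sqrt s)⁻¹ : ℂ) • v j, ?_, ?_, ?_⟩
    · intro w
      have : ∀ k, inner ℂ (mo π X.d1 w k) (((Real.sqrt s)⁻¹ : ℂ) • v k) =
          ((Real.sqrt s)⁻¹ : ℂ) * inner ℂ (mo π X.d1 w k) (v k) := fun k => inner_smul_right _ _ _
      rw [Finset.sum_congr rfl fun k _ => this k, ← Finset.mul_sum, ho, mul_zero]
    · have : ∀ j, ‖((Real.sqrt s)⁻¹ : ℂ) • v j‖ ^ 2 = s⁻¹ * ‖v j‖ ^ 2 := by
        intro j
        rw [norm_smul, mul_pow, hc]
      rw [Finset.sum_congr rfl fun j _ => this j, ← Finset.mul_sum, ← hs, inv_mul_cancel₀ hs0.ne']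
    · have : ∀ k, ‖mo π X.d2 (fun j => ((Real.sqrt s)⁻¹ : ℂ) • v j) k‖ ^ 2 =
          s⁻¹ * ‖mo π X.d2 v k‖ ^ 2 := by
        intro k
        rw [mo_smul, norm_smul, mul_pow, hc]
      rw [Finset.sum_congr rfl fun k _ => this k, ← Finset.mul_sum]
      calc s⁻¹ * ∑ k, ‖mo π X.d2 v k‖ ^ 2 < s⁻¹ * (1 / ((n : ℝ) + 1) * s) :=
            mul_lt_mul_of_pos_left hv (inv_pos.2 hs0)
        _ = 1 / ((n : ℝ) + 1) := by field_simp
  choose v ho hv1 hv2 using key
  obtain ⟨H', i1, i2, i3, π', q, h1, h2, h3, h4, h5⟩ := hu G H π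
  -- the limit is tempered
  have hT' : Tempered π' := by
    intro c K hK
    have hx : ∀ x : ℕ → H, BdS x → ‖π'.sum c (q x)‖ ≤ K * ‖q x‖ := by
      intro x hx
      rw [q_csum π π' q h1 h2 h3 c x hx]
      have hb : BdS fun n => π.sum c (x n) := by
        obtain ⟨C, hC⟩ := hx
        refine ⟨|K| * C, fun n => (hT c K hK (x n)).trans ?_⟩
        exact mul_le_mul (le_abs_self K) (hC n) (norm_nonneg _) (abs_nonneg K)
      refine le_of_tendsto_of_tendsto (h4 _ hb) ((h4 x hx).const_mul K) ?_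
      exact Filter.Eventually.of_forall fun n => hT c K hK (x n)
    have hd : DenseRange (fun x : {x : ℕ → H // BdS x} => q x.1) := by
      intro v
      rw [Metric.mem_closure_iff]
      intro ε hε
      obtain ⟨x, hx, hxv⟩ := h5 v ε hε
      exact ⟨_, ⟨⟨x, hx⟩, rfl⟩, by rw [dist_eq_norm]; exact hxv⟩
    intro v
    refine hd.induction_on v (isClosed_le ((continuous_sum π' c).norm)
      (continuous_const.mul continuous_norm)) fun x => hx x.1 x.2
  have hvb : ∀ j, BdS fun n => v n j := by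
    intro j
    refine ⟨1, fun n => ?_⟩
    have h : ‖v n j‖ ^ 2 ≤ 1 := by
      rw [← hv1 n]
      exact Finset.single_le_sum (f := fun j => ‖v n j‖ ^ 2) (fun _ _ => sq_nonneg _)
        (Finset.mem_univ j)
    nlinarith [norm_nonneg (v n j)]
  have hdv : mo π' X.d2 (fun j => q fun n => v n j) = 0 := by
    funext k
    rw [q_mo π π' q h1 h2 h3 X.d2 (fun j n => v n j) hvb k]
    have hb : BdS fun n => mo π X.d2 (fun j => v n j) k := by
      have : (fun n => mo π X.d2 (fun j => v n j) k) =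
          ∑ j, fun n => alC π (X.d2 k j) (v n j) := by
        funext n
        rw [Finset.sum_apply]
        rfl
      rw [this]
      exact BdS.sum _ fun j => (hvb j).op _
    have h0 : Tendsto (fun n => ‖mo π X.d2 (fun j => v n j) k‖) (hyperfilter ℕ : Filter ℕ)
        (𝓝 0) := by
      have h6 : Tendsto (fun n : ℕ => 1 / ((n : ℝ) + 1)) atTop (𝓝 0) :=
        tendsto_one_div_add_atTop_nhds_zero_nat
      have h7 : Tendsto (fun n => ‖mo π X.d2 (fun j => v n j) k‖ ^ 2) atTop (𝓝 0) := by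
        refine squeeze_zero (fun n => sq_nonneg _) (fun n => ?_) h6
        refine le_trans ?_ (hv2 n).le
        exact Finset.single_le_sum (f := fun k => ‖mo π X.d2 (v n) k‖ ^ 2) (fun _ _ => sq_nonneg _)
          (Finset.mem_univ k)
      have h8 := h7.sqrt
      simp only [Real.sqrt_sq (norm_nonneg _), Real.sqrt_zero] at h8
      exact h8.mono_left Nat.hyperfilter_le_atTop
    have h9 := tendsto_nhds_unique (h4 _ hb) h0
    exact norm_eq_zero.1 h9
  obtain ⟨w', hw'⟩ := hf G H' X π' (hV H' π' hT') _ hdv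
  -- approximation
  set δ : ℝ := 1 / ((X.n1 : ℝ) + 1) with hδ
  have hδ0 : 0 < δ := by positivity
  obtain ⟨η, hη, hcont⟩ := Metric.continuous_iff.1 (continuous_mo π' X.d1) w' δ hδ0
  choose m hm1 hm2 using fun j => h5 (w' j) η hη
  have hclose := hcont (fun j => q (m j)) (by
    rw [dist_pi_lt_iff hη]
    intro j
    rw [dist_eq_norm, norm_sub_rev]
    exact hm2 j)
  rw [dist_pi_lt_iff hδ0] at hclose
  have hk : ∀ k, ∀ᶠ n in (hyperfilter ℕ : Filter ℕ),
      ‖v n k - mo π X.d1 (fun j => m j n) k‖ < δ := by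
    intro k
    have hb : BdS fun n => mo π X.d1 (fun j => m j n) k := by
      have : (fun n => mo π X.d1 (fun j => m j n) k) =
          ∑ j, fun n => alC π (X.d1 k j) (m j n) := by
        funext n
        rw [Finset.sum_apply]
        rfl
      rw [this]
      exact BdS.sum _ fun j => BdS.op _ (hm1 j)
    have hb2 : BdS ((fun n => v n k) - fun n => mo π X.d1 (fun j => m j n) k) := by
      have := (hvb k).add (hb.smul (-1))
      rwa [neg_one_smul, ← sub_eq_add_neg] at this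
    have e := h4 _ hb2
    rw [q_sub q h1 h2 _ _ (hvb k) hb, ← q_mo π π' q h1 h2 h3 X.d1 m hm1 k] at e
    have h6 := hclose k
    rw [dist_eq_norm, norm_sub_rev, hw'] at h6
    exact e.eventually_lt_const h6
  obtain ⟨n, hn⟩ := (Filter.eventually_all.2 hk).exists
  -- Pythagoras
  set d := mo π X.d1 (fun j => m j n) with hd
  have hpy : ∑ k, ‖v n k‖ ^ 2 ≤ ∑ k, ‖v n k - d k‖ ^ 2 := by
    have h6 : ∀ k, ‖v n k - d k‖ ^ 2 =
        ‖v n k‖ ^ 2 - 2 * (inner ℂ (d k) (v n k)).re + ‖d k‖ ^ 2 := by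
      intro k
      rw [@norm_sub_sq ℂ, inner_re_symm]
      rfl
    rw [Finset.sum_congr rfl fun k _ => h6 k, Finset.sum_add_distrib, Finset.sum_sub_distrib,
      ← Finset.mul_sum]
    have h7 : ∑ k, (inner ℂ (d k) (v n k)).re = 0 := by
      rw [← Complex.re_sum, ho n fun j => m j n]
      rfl
    rw [h7]
    have h8 : 0 ≤ ∑ k, ‖d k‖ ^ 2 := Finset.sum_nonneg fun _ _ => sq_nonneg _
    linarith
  have hlt : ∑ k, ‖v n k - d k‖ ^ 2 ≤ (X.n1 : ℝ) * δ ^ 2 := by
    calc ∑ k, ‖v n k - d k‖ ^ 2 ≤ ∑ _k : Fin (X.n1), δ ^ 2 :=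
          Finset.sum_le_sum fun k _ => by
            have := (hn k).le
            exact pow_le_pow_left₀ (norm_nonneg _) this 2
      _ = (X.n1 : ℝ) * δ ^ 2 := by simp
  rw [hv1 n] at hpy
  have h9 : (X.n1 : ℝ) * δ ^ 2 < 1 := by
    rw [hδ, div_pow, one_pow, mul_one_div, div_lt_one (by positivity)]
    have : (0 : ℝ) ≤ X.n1 := Nat.cast_nonneg _
    nlinarith
  linarith

end

end Pool.Agent.Q214.RC
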