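import Pool.Agent.Q23.RC.Stm

set_option autoImplicit false
set_option linter.unusedSectionVars false

namespace Pool.Agent.Q214.RC

open scoped Matrix
open Pool.Agent.H919R4.ZS (L2)
open Pool.Agent.Q169.PT (Rep IsCoc Van1 reg Tempered)
open Pool.Agent.Q23.RC

noncomputable section

variable {G : Type} [Group G]

/-- bounded by finitely many displacements -/
def SmR (A : Subgroup G) (N : L2 G → ℝ) : Prop :=
  ∃ (S : Finset A) (K : ℝ), 0 ≤ K ∧ ∀ f, N f ≤ K * ∑ s ∈ S, ‖(reg G).hom (s : G) f - f‖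

theorem SmR.mono {A : Subgroup G} {N N' : L2 G → ℝ} (h : SmR A N) (h' : ∀ f, N' f ≤ N f) :
    SmR A N' := by
  obtain ⟨S, K, hK, hN⟩ := h
  exact ⟨S, K, hK, fun f => (h' f).trans (hN f)⟩

theorem SmR.zero (A : Subgroup G) : SmR A (fun _ => 0) := ⟨∅, 0, le_rfl, fun f => by simp⟩

theorem SmR.add {A : Subgroup G} {N N' : L2 G → ℝ} (h : SmR A N) (h' : SmR A N') :
    SmR A (fun f => N f + N' f) := by
  classical
  obtain ⟨S, K, hK, hN⟩ := h
  obtain ⟨S', K', hK', hN'⟩ := h'
  refine ⟨S ∪ S', K + K', add_nonneg hK hK', fun f => ?_⟩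
  have h1 : ∑ s ∈ S, ‖(reg G).hom (s : G) f - f‖ ≤ ∑ s ∈ S ∪ S', ‖(reg G).hom (s : G) f - f‖ :=
    Finset.sum_le_sum_of_subset_of_nonneg Finset.subset_union_left fun _ _ _ => norm_nonneg _
  have h2 : ∑ s ∈ S', ‖(reg G).hom (s : G) f - f‖ ≤ ∑ s ∈ S ∪ S', ‖(reg G).hom (s : G) f - f‖ :=
    Finset.sum_le_sum_of_subset_of_nonneg Finset.subset_union_right fun _ _ _ => norm_nonneg _
  calc N f + N' f ≤ K * (∑ s ∈ S, ‖(reg G).hom (s : G) f - f‖) +
        K' * ∑ s ∈ S', ‖(reg G).hom (s : G) f - f‖ := add_le_add (hN f) (hN' f)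
    _ ≤ K * (∑ s ∈ S ∪ S', ‖(reg G).hom (s : G) f - f‖) +
        K' * ∑ s ∈ S ∪ S', ‖(reg G).hom (s : G) f - f‖ :=
        add_le_add (mul_le_mul_of_nonneg_left h1 hK) (mul_le_mul_of_nonneg_left h2 hK')
    _ = _ := by ring

theorem SmR.const_mul {A : Subgroup G} {N : L2 G → ℝ} (c : ℝ) (hc : 0 ≤ c) (h : SmR A N) :
    SmR A (fun f => c * N f) := by
  obtain ⟨S, K, hK, hN⟩ := h
  refine ⟨S, c * K, mul_nonneg hc hK, fun f => ?_⟩
  rw [mul_assoc]
  exact mul_le_mul_of_nonneg_left (hN f) hc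

theorem SmR.sum {A : Subgroup G} {ι : Type} (s : Finset ι) {N : ι → L2 G → ℝ}
    (h : ∀ i, SmR A (N i)) : SmR A (fun f => ∑ i ∈ s, N i f) := by
  classical
  induction s using Finset.induction_on with
  | empty => exact (SmR.zero A).mono fun f => by simp
  | insert i s hi ih =>
    exact ((h i).add ih).mono fun f => by rw [Finset.sum_insert hi]

/-- the vector attached to a coset -/
def Psv {c : ℕ} {H : Fin c → Subgroup G} (a : Fin c) (f : L2 G) (e : Cos H) : L2 G :=
  if e.1 = a then (reg G).hom (Quotient.out e.2) f else 0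

theorem Psv_diff {c : ℕ} {H : Fin c → Subgroup G} (a : Fin c) (g : G) (e : Cos H) :
    SmR (H a) (fun f => ‖(reg G).hom g (Psv a f e) - Psv a f (g • e)‖) := by
  obtain ⟨b, q⟩ := e
  have hge : (g • (⟨b, q⟩ : Cos H)) = ⟨b, g • q⟩ := rfl
  rw [hge]
  by_cases hb : b = a
  · subst hb
    have hy : ((Quotient.out (g • q) : G) : G ⧸ H b) = ((g * Quotient.out q : G) : G ⧸ H b) := by
      rw [show (((Quotient.out (g • q) : G)) : G ⧸ H b) = g • q from Quotient.out_eq' _]
      conv_lhs => rw [← Quotient.out_eq' q]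
      rfl
    have ht := QuotientGroup.eq.mp hy
    refine ⟨{⟨_, ht⟩}, 1, zero_le_one, fun f => ?_⟩
    rw [Finset.sum_singleton, one_mul]
    simp only [Psv, if_true]
    have e1 : (reg G).hom g ((reg G).hom (Quotient.out q) f) =
        (reg G).hom (Quotient.out (g • q))
          ((reg G).hom ((Quotient.out (g • q))⁻¹ * (g * Quotient.out q)) f) := by
      change ((reg G).hom g * (reg G).hom (Quotient.out q)) f = ((reg G).hom (Quotient.out (g • q)) *
        (reg G).hom ((Quotient.out (g • q))⁻¹ * (g * Quotient.out q))) f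
      rw [← map_mul, ← map_mul, mul_inv_cancel_left]
    rw [e1, ← map_sub, (reg G).norm]
  · refine (SmR.zero (H a)).mono fun f => ?_
    simp only [Psv, if_neg hb, map_zero, sub_zero, norm_zero, le_refl]

/-- the map of finitely supported functions on the cosets -/
def psi {c : ℕ} {H : Fin c → Subgroup G} (a : Fin c) (f : L2 G) : (Cos H →₀ ℂ) →+ L2 G :=
  Finsupp.liftAddHom fun e =>
    { toFun := fun r => (starRingEnd ℂ r) • Psv a f e
      map_zero' := by rw [map_zero, zero_smul]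
      map_add' := fun x y => by rw [map_add, add_smul] }

theorem psi_apply {c : ℕ} {H : Fin c → Subgroup G} (a : Fin c) (f : L2 G) (x : Cos H →₀ ℂ) :
    psi a f x = x.sum fun e r => (starRingEnd ℂ r) • Psv a f e := rfl

theorem psi_single {c : ℕ} {H : Fin c → Subgroup G} (a : Fin c) (f : L2 G) (e : Cos H) (r : ℂ) :
    psi a f (Finsupp.single e r) = (starRingEnd ℂ r) • Psv a f e := by
  rw [psi_apply, Finsupp.sum_single_index]
  rw [map_zero, zero_smul]

theorem psi_smul {c : ℕ} {H : Fin c → Subgroup G} (a : Fin c) (f : L2 G) (r : ℂ)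
    (x : Cos H →₀ ℂ) : psi a f (r • x) = (starRingEnd ℂ r) • psi a f x := by
  induction x using Finsupp.induction_linear with
  | zero => rw [smul_zero, map_zero, smul_zero]
  | add x y hx hy => rw [smul_add, map_add, map_add, hx, hy, smul_add]
  | single e s => rw [Finsupp.smul_single, psi_single, psi_single, smul_eq_mul, map_mul, mul_smul]

theorem psi_mapDomain {c : ℕ} {H : Fin c → Subgroup G} (a : Fin c) (f : L2 G) (g : G)
    (x : Cos H →₀ ℂ) : psi a f (x.mapDomain fun e => g • e) =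
      x.sum fun e r => (starRingEnd ℂ r) • Psv a f (g • e) := by
  induction x using Finsupp.induction_linear with
  | zero => rw [Finsupp.mapDomain_zero, map_zero, Finsupp.sum_zero_index]
  | add x y hx hy =>
    rw [Finsupp.mapDomain_add, map_add, hx, hy, Finsupp.sum_add_index']
    · intro e; rw [map_zero, zero_smul]
    · intro e r s; rw [map_add, add_smul]
  | single e s =>
    rw [Finsupp.mapDomain_single, psi_single, Finsupp.sum_single_index]
    rw [map_zero, zero_smul]

theorem hom_psi {c : ℕ} {H : Fin c → Subgroup G} (a : Fin c) (f : L2 G) (g : G)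
    (x : Cos H →₀ ℂ) : (reg G).hom g (psi a f x) =
      x.sum fun e r => (starRingEnd ℂ r) • (reg G).hom g (Psv a f e) := by
  rw [psi_apply, Finsupp.sum, Finsupp.sum, map_sum]
  exact Finset.sum_congr rfl fun e _ => map_smul _ _ _

theorem psi_diff {c : ℕ} {H : Fin c → Subgroup G} (a : Fin c) (g : G) (x : Cos H →₀ ℂ) :
    SmR (H a) (fun f => ‖(reg G).hom g (psi a f x) - psi a f (x.mapDomain fun e => g • e)‖) := by
  have h1 := SmR.sum x.support (fun e => (Psv_diff a g e).const_mul ‖x e‖ (norm_nonneg _))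
  refine h1.mono fun f => ?_
  rw [psi_mapDomain, hom_psi, Finsupp.sum, Finsupp.sum, ← Finset.sum_sub_distrib]
  refine (norm_sum_le _ _).trans (Finset.sum_le_sum fun e _ => ?_)
  rw [← smul_sub, norm_smul, RCLike.norm_conj]

theorem ind_all {n : ℕ} (Q : (Fin n → MonoidAlgebra ℂ G) → Prop) (h0 : Q 0)
    (ha : ∀ x y, Q x → Q y → Q (x + y))
    (hs : ∀ (k : Fin n) (g : G) (r : ℂ), Q (r • fun j =>
      (Pi.single k 1 : Fin n → MonoidAlgebra ℂ G) j * MonoidAlgebra.single g 1)) : ∀ y, Q y := by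
  have hk : ∀ (k : Fin n) (x : MonoidAlgebra ℂ G), Q (Pi.single k x) := by
    intro k x
    induction x using MonoidAlgebra.induction_linear with
    | zero => rw [Pi.single_zero]; exact h0
    | add x y hx hy => rw [Pi.single_add]; exact ha _ _ hx hy
    | single g r =>
      have e : (Pi.single k (MonoidAlgebra.single g r) : Fin n → MonoidAlgebra ℂ G) =
          r • fun j => (Pi.single k 1 : Fin n → MonoidAlgebra ℂ G) j *
            MonoidAlgebra.single g 1 := by
        funext j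
        rw [Pi.smul_apply]
        by_cases hj : j = k
        · subst hj
          rw [Pi.single_eq_same, Pi.single_eq_same, one_mul, MonoidAlgebra.smul_single,
            smul_eq_mul, mul_one]
        · rw [Pi.single_eq_of_ne hj, Pi.single_eq_of_ne hj, zero_mul, smul_zero]
      rw [e]
      exact hs k g r
  intro y
  rw [← Finset.univ_sum_single y]
  exact Finset.sum_induction _ Q ha h0 fun k _ => hk k _

theorem norm_le_of_disjoint (A : Subgroup G) (F F' : L2 G) (h : ∀ x, x ∉ A → F x = 0)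
    (h' : ∀ x, x ∈ A → F' x = 0) : ‖F‖ ≤ ‖F - F'‖ := by
  have hi : inner ℂ F F' = 0 := by
    rw [lp.inner_eq_tsum]
    have : ∀ i, inner ℂ (F i) (F' i) = 0 := by
      intro i
      by_cases hi : i ∈ A
      · rw [h' i hi, inner_zero_right]
      · rw [h i hi, inner_zero_left]
    simp only [this, tsum_zero]
  have h2 : ‖F‖ ^ 2 ≤ ‖F - F'‖ ^ 2 := by
    rw [@norm_sub_sq ℂ, hi]
    have := sq_nonneg ‖F'‖
    simp only [map_zero, mul_zero, sub_zero]
    linarith
  exact le_of_sq_le_sq h2 (norm_nonneg _)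

/-- JOB SM -/
theorem sm : S_sm := by
  intro G _ P a hA hphi C hC
  choose φ hφ hφu using fun f : L2 G => hphi (fun k => psi a f (P.ev (Pi.single k 1)))
  -- comparison of the two maps
  have c1 : ∀ y, SmR (P.H a) (fun f => ‖φ f y - psi a f (P.ev y)‖) := by
    refine ind_all _ ?_ ?_ ?_
    · refine (SmR.zero _).mono fun f => ?_
      rw [map_zero, map_zero, map_zero, sub_zero, norm_zero]
    · intro x y hx hy
      refine (hx.add hy).mono fun f => ?_
      rw [map_add, map_add, map_add, add_sub_add_comm]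
      exact norm_add_le _ _
    · intro k g r
      have h1 := ((psi_diff a g⁻¹ (P.ev (Pi.single k 1))).const_mul
        ‖((P.w g : ℤ) : ℂ)‖ (norm_nonneg _)).const_mul ‖r‖ (norm_nonneg _)
      refine h1.mono fun f => ?_
      rw [(hφ f).smul, (hφ f).mul, map_smul, P.smul, psi_smul, map_zsmul, hφu, ← smul_sub,
        ← smul_sub, norm_smul, RCLike.norm_conj, ← Int.cast_smul_eq_zsmul ℂ, norm_smul]
  -- the kernel
  have c2 : ∀ y, P.ev y = 0 → SmR (P.H a) (fun f => ‖φ f y‖) := by
    intro y hy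
    refine (c1 y).mono fun f => ?_
    rw [hy, map_zero, sub_zero]
  have k1 : ∀ z, P.ev (P.X.d2 *ᵥ z) = 0 := by
    intro z
    rw [P.ker]
    exact ⟨z, by rw [Matrix.mulVec_mulVec, P.p_mul_d2]⟩
  have k2 : ∀ z, P.ev (z - P.p *ᵥ z) = 0 := by
    intro z
    rw [P.ker]
    exact ⟨0, by rw [Matrix.mulVec_zero, Matrix.mulVec_sub, Matrix.mulVec_mulVec, P.p_mul_p,
      sub_self]⟩
  have c3 : ∀ k, SmR (P.H a) (fun f => ‖φ f (Pi.single k 1)‖) := by
    intro k
    have h1 := SmR.sum (Finset.univ : Finset (Fin P.X.n1))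
      (fun j => c2 _ (k1 (Pi.single j 1)))
    have h2 := SmR.sum (Finset.univ : Finset (Fin P.X.n2))
      (fun l => c2 _ (k2 (Pi.single l 1)))
    refine ((h1.add h2).const_mul |C| (abs_nonneg C)).mono fun f => ?_
    refine (hC (φ f) (hφ f) k).trans ?_
    have e : ∀ l, φ f (Pi.single l 1 - P.p *ᵥ Pi.single l 1) =
        φ f (Pi.single l 1) - φ f (P.p *ᵥ Pi.single l 1) := fun l => map_sub _ _ _
    simp only [e]
    refine mul_le_mul_of_nonneg_right (le_abs_self C) ?_
    exact add_nonneg (Finset.sum_nonneg fun _ _ => norm_nonneg _)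
      (Finset.sum_nonneg fun _ _ => norm_nonneg _)
  have c4 : ∀ y, SmR (P.H a) (fun f => ‖φ f y‖) := by
    refine ind_all _ ?_ ?_ ?_
    · refine (SmR.zero _).mono fun f => ?_
      rw [map_zero, norm_zero]
    · intro x y hx hy
      refine (hx.add hy).mono fun f => ?_
      rw [map_add]
      exact norm_add_le _ _
    · intro k g r
      have h1 := ((c3 k).const_mul ‖((P.w g : ℤ) : ℂ)‖ (norm_nonneg _)).const_mul ‖r‖
        (norm_nonneg _)
      refine h1.mono fun f => ?_
      rw [(hφ f).smul, (hφ f).mul, norm_smul, RCLike.norm_conj, ← Int.cast_smul_eq_zsmul ℂ,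
        norm_smul, (reg G).norm]
  have c5 : ∀ y, SmR (P.H a) (fun f => ‖psi a f (P.ev y)‖) := by
    intro y
    refine ((c4 y).add (c1 y)).mono fun f => ?_
    have e : psi a f (P.ev y) = φ f y - (φ f y - psi a f (P.ev y)) := by abel
    calc ‖psi a f (P.ev y)‖ = ‖φ f y - (φ f y - psi a f (P.ev y))‖ := by rw [← e]
      _ ≤ ‖φ f y‖ + ‖φ f y - psi a f (P.ev y)‖ := norm_sub_le _ _
  -- two cosets
  obtain ⟨g, hg⟩ : ∃ g, g ∉ P.H a := by
    by_contra hc
    push Not at hc
    exact hA (eq_top_iff.mpr fun g _ => hc g)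
  obtain ⟨q0, hq0⟩ : ∃ q0 : G ⧸ P.H a, q0 = ((1 : G) : G ⧸ P.H a) := ⟨_, rfl⟩
  obtain ⟨q1, hq1⟩ : ∃ q1 : G ⧸ P.H a, q1 = (g : G ⧸ P.H a) := ⟨_, rfl⟩
  obtain ⟨y, hy⟩ := (P.range (Finsupp.single (⟨a, q0⟩ : Cos P.H) 1 -
    Finsupp.single (⟨a, q1⟩ : Cos P.H) 1)).mp (by
      rw [Finsupp.sum_sub_index (fun _ _ _ => rfl), Finsupp.sum_single_index rfl,
        Finsupp.sum_single_index rfl, sub_self])
  obtain ⟨S, K, hK, hN⟩ := c5 y
  refine ⟨S, K, hK, fun f hf => le_trans ?_ (hN f)⟩
  simp only [hy, map_sub, psi_single, map_one, one_smul]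
  have e0 : Psv a f (⟨a, q0⟩ : Cos P.H) = (reg G).hom (Quotient.out q0) f := by
    simp only [Psv, if_true]
  have e1 : Psv a f (⟨a, q1⟩ : Cos P.H) = (reg G).hom (Quotient.out q1) f := by
    simp only [Psv, if_true]
  rw [e0, e1]
  have m0 : Quotient.out q0 ∈ P.H a := by
    have h1 : (((Quotient.out q0 : G)) : G ⧸ P.H a) = ((1 : G) : G ⧸ P.H a) := by
      rw [show (((Quotient.out q0 : G)) : G ⧸ P.H a) = q0 from Quotient.out_eq' _, hq0]
    have h2 := QuotientGroup.eq.mp h1.symm
    rwa [inv_one, one_mul] at h2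
  have m1 : Quotient.out q1 ∉ P.H a := by
    intro h
    have h1 : (((Quotient.out q1 : G)) : G ⧸ P.H a) = (g : G ⧸ P.H a) := by
      rw [show (((Quotient.out q1 : G)) : G ⧸ P.H a) = q1 from Quotient.out_eq' _, hq1]
    have h2 := QuotientGroup.eq.mp h1
    have h3 := (P.H a).mul_mem h h2
    rw [mul_inv_cancel_left] at h3
    exact hg h3
  have h5 : ‖f‖ = ‖(reg G).hom (Quotient.out q0) f‖ := ((reg G).norm _ _).symm
  rw [h5]
  refine norm_le_of_disjoint (P.H a) _ _ ?_ ?_
  · intro x hx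
    change f ((Quotient.out q0)⁻¹ * x) = 0
    apply hf
    intro h
    have := (P.H a).mul_mem m0 h
    rw [mul_inv_cancel_left] at this
    exact hx this
  · intro x hx
    change f ((Quotient.out q1)⁻¹ * x) = 0
    apply hf
    intro h
    have h6 := (P.H a).mul_mem h ((P.H a).inv_mem hx)
    rw [mul_inv_cancel_right] at h6
    exact m1 ((P.H a).inv_mem_iff.mp h6)

end

end Pool.Agent.Q214.RC
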